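import Pool.Agent.TH29.OT.Lin

/-!
A cosymplectic structure on a manifold gives an invariant symplectic form on its product with a
vector space of odd dimension.
-/

set_option autoImplicit false

open Set Filter Topology
open scoped ContDiff Manifold

namespace Pool.Agent.TH29.OT

open Pool.Agent.TH242.TI

section lin

variable {E V : Type*} [NormedAddCommGroup E] [NormedSpace ℝ E]
  [NormedAddCommGroup V] [NormedSpace ℝ V]

/-- the form `θ ∧ t` on `E × V`, for functionals `θ` on `E` and `t` on `V` -/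
noncomputable def WW (E : Type*) [NormedAddCommGroup E] [NormedSpace ℝ E] (t : V →L[ℝ] ℝ) :
    (E →L[ℝ] ℝ) →L[ℝ] ((E × V) →L[ℝ] (E × V) →L[ℝ] ℝ) :=
  ((ContinuousLinearMap.smulRightL ℝ (E × V) ((E × V) →L[ℝ] ℝ)).flip
      (t.comp (ContinuousLinearMap.snd ℝ E V))).comp
    ((ContinuousLinearMap.compL ℝ (E × V) E ℝ).flip (ContinuousLinearMap.fst ℝ E V)) -
  ((ContinuousLinearMap.smulRightL ℝ (E × V) ((E × V) →L[ℝ] ℝ))
      (t.comp (ContinuousLinearMap.snd ℝ E V))).comp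
    ((ContinuousLinearMap.compL ℝ (E × V) E ℝ).flip (ContinuousLinearMap.fst ℝ E V))

theorem WW_apply (t : V →L[ℝ] ℝ) (th : E →L[ℝ] ℝ) (a b : E × V) :
    WW E t th a b = th a.1 * t b.2 - t a.2 * th b.1 := rfl

theorem smooth_addf {F G : Type*} [NormedAddCommGroup F] [NormedSpace ℝ F]
    [NormedAddCommGroup G] [NormedSpace ℝ G] {f g : F → G} {s : Set F}
    (hf : ContDiffOn ℝ ∞ f s) (hg : ContDiffOn ℝ ∞ g s) : ContDiffOn ℝ ∞ (fun x => f x + g x) s :=
  hf.add hg

theorem der_addf {F G : Type*} [NormedAddCommGroup F] [NormedSpace ℝ F]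
    [NormedAddCommGroup G] [NormedSpace ℝ G] {f g : F → G} {f' g' : F →L[ℝ] G} {x : F}
    (hf : HasFDerivAt f f' x) (hg : HasFDerivAt g g' x) (c : G) (a : F) :
    fderiv ℝ (fun x => f x + g x + c) x a = f' a + g' a :=
  congrArg (fun L : F →L[ℝ] G => L a) ((hf.add hg).add_const c).fderiv

end lin

section

variable {E X V : Type*} [NormedAddCommGroup E] [NormedSpace ℝ E]
  [NormedAddCommGroup V] [NormedSpace ℝ V]
  [TopologicalSpace X] [ChartedSpace E X] [IsManifold 𝓘(ℝ, E) ∞ X]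

theorem backward [FiniteDimensional ℝ V] (hV : Odd (Module.finrank ℝ V))
    {th : atlas E X → E → E →L[ℝ] ℝ} {sg : atlas E X → E → E →L[ℝ] E →L[ℝ] ℝ}
    (h : Cos (fun e : atlas E X => (e : OpenPartialHomeomorph X E)) th sg) :
    ∃ om : atlas E X → E × V → (E × V) →L[ℝ] (E × V) →L[ℝ] ℝ,
      Sym (fun e : atlas E X => pc V (e : OpenPartialHomeomorph X E)) om ∧ Inv om := by
  obtain ⟨m, ⟨T⟩⟩ := exists_split V hV
  let W := EuclideanSpace ℝ (Fin (2 * m))
  obtain ⟨K, hK, hKn⟩ := exists_K W (by simp [W])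
  let pw : V →L[ℝ] W := (ContinuousLinearMap.fst ℝ W ℝ).comp (T.symm : V →L[ℝ] (W × ℝ))
  let t : V →L[ℝ] ℝ := (ContinuousLinearMap.snd ℝ W ℝ).comp (T.symm : V →L[ℝ] (W × ℝ))
  have hpT : ∀ (w : W) (a : ℝ), pw (T (w, a)) = w := by
    intro w a
    show (T.symm (T (w, a))).1 = w
    rw [ContinuousLinearEquiv.symm_apply_apply]
  have htT : ∀ (w : W) (a : ℝ), t (T (w, a)) = a := by
    intro w a
    show (T.symm (T (w, a))).2 = a
    rw [ContinuousLinearEquiv.symm_apply_apply]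
  have hinj : ∀ v : V, pw v = 0 → t v = 0 → v = 0 := by
    intro v h1 h2
    have h3 : T.symm v = 0 := Prod.ext h1 h2
    exact T.symm.map_eq_zero_iff.1 h3
  let C : (E × V) →L[ℝ] (E × V) →L[ℝ] ℝ :=
    K.bilinearComp (pw.comp (ContinuousLinearMap.snd ℝ E V))
      (pw.comp (ContinuousLinearMap.snd ℝ E V))
  let om : atlas E X → E × V → (E × V) →L[ℝ] (E × V) →L[ℝ] ℝ := fun e p =>
    LL E V (sg e p.1) + WW E t (th e p.1) + C
  have hom : ∀ e p a b, om e p a b = sg e p.1 a.1 b.1 +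
      (th e p.1 a.1 * t b.2 - t a.2 * th e p.1 b.1) + K (pw a.2) (pw b.2) := fun _ _ _ _ => rfl
  refine ⟨om, ⟨?_, ?_, ?_, ?_, ?_⟩, fun e y _ s => rfl⟩
  · intro e
    have h1 : ContDiffOn ℝ ∞ (fun p : E × V => sg e p.1)
        (pc V (e : OpenPartialHomeomorph X E)).target :=
      (h.smooth2 e).comp contDiff_fst.contDiffOn (fun p hp => hp.1)
    have h2 : ContDiffOn ℝ ∞ (fun p : E × V => LL E V (sg e p.1))
        (pc V (e : OpenPartialHomeomorph X E)).target :=
      smooth_clm (G := E →L[ℝ] E →L[ℝ] ℝ) (H := (E × V) →L[ℝ] (E × V) →L[ℝ] ℝ) (LL E V) h1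
    have h3 : ContDiffOn ℝ ∞ (fun p : E × V => th e p.1)
        (pc V (e : OpenPartialHomeomorph X E)).target :=
      (h.smooth1 e).comp contDiff_fst.contDiffOn (fun p hp => hp.1)
    have h4 : ContDiffOn ℝ ∞ (fun p : E × V => WW E t (th e p.1))
        (pc V (e : OpenPartialHomeomorph X E)).target :=
      smooth_clm (G := E →L[ℝ] ℝ) (H := (E × V) →L[ℝ] (E × V) →L[ℝ] ℝ) (WW E t) h3
    exact smooth_add (G := (E × V) →L[ℝ] (E × V) →L[ℝ] ℝ)
      (smooth_addf (G := (E × V) →L[ℝ] (E × V) →L[ℝ] ℝ) h2 h4) C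
  · intro e y hy u
    rw [hom, h.alt e y.1 hy.1, hK]
    ring
  · rintro e e' ⟨x, s⟩ ⟨hx, hx'⟩ ⟨a, v⟩ ⟨b, v'⟩
    have h1 := pc_trans (V := V) e.2 e'.2 hx.1 hx'.1 s
    show om e (pc V (e : OpenPartialHomeomorph X E) (x, s)) (a, v) (b, v') =
      om e' (pc V (e' : OpenPartialHomeomorph X E) (x, s))
        (fderiv ℝ (pc V (e' : OpenPartialHomeomorph X E) ∘
          (pc V (e : OpenPartialHomeomorph X E)).symm)
            (pc V (e : OpenPartialHomeomorph X E) (x, s)) (a, v))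
        (fderiv ℝ (pc V (e' : OpenPartialHomeomorph X E) ∘
          (pc V (e : OpenPartialHomeomorph X E)).symm)
            (pc V (e : OpenPartialHomeomorph X E) (x, s)) (b, v'))
    rw [h1, h1, hom, hom]
    have h2 := h.compat2 e e' x ⟨hx.1, hx'.1⟩ a b
    have h3 := h.compat1 e e' x ⟨hx.1, hx'.1⟩ a
    have h4 := h.compat1 e e' x ⟨hx.1, hx'.1⟩ b
    show sg e ((e : OpenPartialHomeomorph X E) x) a b +
      (th e ((e : OpenPartialHomeomorph X E) x) a * t v' -
        t v * th e ((e : OpenPartialHomeomorph X E) x) b) + K (pw v) (pw v') = _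
    rw [h2, h3, h4]
    rfl
  · intro e y hy u v w
    have hd : DifferentiableAt ℝ (sg e) y.1 :=
      ((h.smooth2 e).contDiffAt ((e : OpenPartialHomeomorph X E).open_target.mem_nhds hy.1)
        ).differentiableAt (by simp)
    have hd' : DifferentiableAt ℝ (th e) y.1 :=
      ((h.smooth1 e).contDiffAt ((e : OpenPartialHomeomorph X E).open_target.mem_nhds hy.1)
        ).differentiableAt (by simp)
    have h3 : HasFDerivAt (fun p : E × V => LL E V (sg e p.1))
        ((LL E V).comp ((fderiv ℝ (sg e) y.1).comp (ContinuousLinearMap.fst ℝ E V))) y :=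
      clm_der (F := E × V) (G := E →L[ℝ] E →L[ℝ] ℝ) (H := (E × V) →L[ℝ] (E × V) →L[ℝ] ℝ) (LL E V)
        (fst_der (F := E) (G := E →L[ℝ] E →L[ℝ] ℝ) (H := V) hd.hasFDerivAt)
    have h3' : HasFDerivAt (fun p : E × V => WW E t (th e p.1))
        ((WW E t).comp ((fderiv ℝ (th e) y.1).comp (ContinuousLinearMap.fst ℝ E V))) y :=
      clm_der (F := E × V) (G := E →L[ℝ] ℝ) (H := (E × V) →L[ℝ] (E × V) →L[ℝ] ℝ) (WW E t)
        (fst_der (F := E) (G := E →L[ℝ] ℝ) (H := V) hd'.hasFDerivAt)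
    have h4 : ∀ a : E × V, fderiv ℝ (om e) y a = LL E V (fderiv ℝ (sg e) y.1 a.1) +
        WW E t (fderiv ℝ (th e) y.1 a.1) := fun a =>
      der_addf (F := E × V) (G := (E × V) →L[ℝ] (E × V) →L[ℝ] ℝ) h3 h3' C a
    have h5 : ∀ a b c : E × V, fderiv ℝ (om e) y a b c = fderiv ℝ (sg e) y.1 a.1 b.1 c.1 +
        (fderiv ℝ (th e) y.1 a.1 b.1 * t c.2 - t b.2 * fderiv ℝ (th e) y.1 a.1 c.1) := by
      intro a b c
      rw [h4]
      rfl
    have h6 := h.closed2 e y.1 hy.1 u.1 v.1 w.1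
    have h7 : fderiv ℝ (th e) y.1 u.1 v.1 = fderiv ℝ (th e) y.1 v.1 u.1 :=
      h.closed1 e y.1 hy.1 u.1 v.1
    have h8 : fderiv ℝ (th e) y.1 v.1 w.1 = fderiv ℝ (th e) y.1 w.1 v.1 :=
      h.closed1 e y.1 hy.1 v.1 w.1
    have h9 : fderiv ℝ (th e) y.1 w.1 u.1 = fderiv ℝ (th e) y.1 u.1 w.1 :=
      h.closed1 e y.1 hy.1 w.1 u.1
    show fderiv ℝ (om e) y u v w + fderiv ℝ (om e) y v w u + fderiv ℝ (om e) y w u v = 0
    rw [h5, h5, h5, h7, h8, h9]
    linear_combination h6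
  · rintro e y hy ⟨a, v⟩ hav
    obtain ⟨v0, hv0⟩ := h.ne e y.1 hy.1
    by_cases hta : th e y.1 a = 0
    · by_cases ha : a = 0
      · by_cases htv : t v = 0
        · have hpv : pw v ≠ 0 := by
            intro h1
            exact hav (by rw [ha, hinj v h1 htv]; rfl)
          obtain ⟨w', hw'⟩ := hKn _ hpv
          refine ⟨(0, T (w', 0)), ?_⟩
          rw [hom, ha]
          simp only [map_zero, hpT, htT]
          simpa using hw'
        · refine ⟨(v0, 0), ?_⟩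
          rw [hom, ha]
          simp only [map_zero, zero_apply]
          simpa using ⟨htv, hv0⟩
      · obtain ⟨b, hb, hab⟩ := h.nondeg e y.1 hy.1 a ha hta
        refine ⟨(b, 0), ?_⟩
        rw [hom]
        simp only [map_zero, hb, hta]
        simpa using hab
    · refine ⟨(0, T (0, 1)), ?_⟩
      rw [hom]
      simp only [map_zero, hpT, htT]
      simpa using hta

end

end Pool.Agent.TH29.OT
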