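import Pool.Agent.TH29.OT.Lin

/-!
An invariant symplectic form on the product of a closed manifold with a vector space of odd
dimension gives a cosymplectic structure on the closed manifold.
-/

set_option autoImplicit false

open Set Filter Topology
open scoped ContDiff Manifold

namespace Pool.Agent.TH29.OT

open Pool.Agent.TH242.TI

section

variable {E X V : Type*} [NormedAddCommGroup E] [NormedSpace ℝ E]
  [NormedAddCommGroup V] [NormedSpace ℝ V]
  [TopologicalSpace X] [ChartedSpace E X] [IsManifold 𝓘(ℝ, E) ∞ X]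

variable {om : atlas E X → E × V → (E × V) →L[ℝ] (E × V) →L[ℝ] ℝ}

theorem forward [CompactSpace X] [ConnectedSpace X] [FiniteDimensional ℝ E]
    [FiniteDimensional ℝ V] (hV : Odd (Module.finrank ℝ V))
    (h : Sym (fun e : atlas E X => pc V (e : OpenPartialHomeomorph X E)) om) (hi : Inv om) :
    ∃ (th : atlas E X → E → E →L[ℝ] ℝ) (sg : atlas E X → E → E →L[ℝ] E →L[ℝ] ℝ),
      Cos (fun e : atlas E X => (e : OpenPartialHomeomorph X E)) th sg := by
  obtain ⟨B0, hB0⟩ := exists_B h hi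
  obtain ⟨m, ⟨T⟩⟩ := exists_split V hV
  let W := EuclideanSpace ℝ (Fin (2 * m))
  obtain ⟨K, hK, hKn⟩ := exists_K W (by simp [W])
  -- the forms on `V`
  let pw : V →L[ℝ] W := (ContinuousLinearMap.fst ℝ W ℝ).comp (T.symm : V →L[ℝ] (W × ℝ))
  let iw : W →L[ℝ] V := (T : (W × ℝ) →L[ℝ] V).comp (ContinuousLinearMap.inl ℝ W ℝ)
  let KV : V →L[ℝ] V →L[ℝ] ℝ := K.bilinearComp pw pw
  let B : W →L[ℝ] W →L[ℝ] ℝ := B0.bilinearComp iw iw
  have hBap : ∀ w w' : W, B w w' = B0 (T (w, 0)) (T (w', 0)) := fun _ _ => rfl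
  have hKV : ∀ (w w' : W) (a a' : ℝ), KV (T (w, a)) (T (w', a')) = K w w' := by
    intro w w' a a'
    show K (T.symm (T (w, a))).1 (T.symm (T (w', a'))).1 = K w w'
    rw [ContinuousLinearEquiv.symm_apply_apply, ContinuousLinearEquiv.symm_apply_apply]
  obtain ⟨ε, hε, hn⟩ := exists_eps hKn B (evND h KV)
  obtain ⟨k, hk⟩ := hn.equiv
  set J : (W →L[ℝ] ℝ) →L[ℝ] W := (k.symm : (W →L[ℝ] ℝ) →L[ℝ] W) with hJ
  -- the transported form
  let f : atlas E X → E → ((E × ℝ) × W) →L[ℝ] ((E × ℝ) × W) →L[ℝ] ℝ := fun e y =>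
    TR E T (Om om e y)
  have hf : ∀ e y a b, f e y a b = Om om e y (PP E T a) (PP E T b) := fun _ _ _ _ => rfl
  have hpt : ∀ e : atlas E X, ∀ y ∈ (e : OpenPartialHomeomorph X E).target,
      Pt k B K ε (f e y) := by
    intro e y hy
    refine ⟨fun v v' => ?_, hK, fun a b => Om_alt h e hy _ _, fun v v' => ?_⟩
    · have h1 : k v = (B + ε • K) v := by rw [← hk]; rfl
      rw [h1]; rfl
    · have h1 := hB0 e ((e : OpenPartialHomeomorph X E).symm y)
        ((e : OpenPartialHomeomorph X E).map_target hy) (T (v, 0)) (T (v', 0))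
      rwa [(e : OpenPartialHomeomorph X E).right_inv hy] at h1
  have hNd : ∀ e : atlas E X, ∀ y ∈ (e : OpenPartialHomeomorph X E).target,
      ND (addK K ε (f e y)) := by
    intro e y hy
    have h1 := hε ((e : OpenPartialHomeomorph X E).symm y) e
      ((e : OpenPartialHomeomorph X E).map_target hy)
    rw [(e : OpenPartialHomeomorph X E).right_inv hy] at h1
    rintro ⟨⟨u, a⟩, w⟩ hu
    have h2 : (u, T (w, a)) ≠ (0 : E × V) := by
      intro h3
      apply hu
      have h4 : u = 0 := congrArg Prod.fst h3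
      have h5 : T (w, a) = 0 := congrArg Prod.snd h3
      have h6 : (w, a) = (0 : W × ℝ) := T.map_eq_zero_iff.1 h5
      have h7 : w = 0 := congrArg Prod.fst h6
      have h8 : a = 0 := congrArg Prod.snd h6
      rw [h4, h7, h8]; rfl
    obtain ⟨⟨u', v'⟩, hv⟩ := h1 _ h2
    refine ⟨((u', (T.symm v').2), (T.symm v').1), ?_⟩
    rw [addK_apply, hf, PP_apply, PP_apply]
    rw [addK_apply] at hv
    have h9 : T ((T.symm v').1, (T.symm v').2) = v' := T.apply_symm_apply v'
    have h10 : KV (T (w, a)) v' = K w (T.symm v').1 := by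
      conv_lhs => rw [← h9]
      exact hKV _ _ _ _
    rw [h9]
    show Om om e y (u, T (w, a)) (u', v') + ε * K w (T.symm v').1 ≠ 0
    rw [← h10]
    exact hv
  -- the reduced form on `E × ℝ`
  let S : atlas E X → E → (E × ℝ) →L[ℝ] (E × ℝ) →L[ℝ] ℝ := fun e y => SG J (f e y)
  have hfs : ∀ e : atlas E X, ContDiffOn ℝ ∞ (f e) (e : OpenPartialHomeomorph X E).target :=
    fun e => smooth_clm (G := (E × V) →L[ℝ] (E × V) →L[ℝ] ℝ)
      (H := ((E × ℝ) × W) →L[ℝ] ((E × ℝ) × W) →L[ℝ] ℝ) (TR E T) (Om_smooth h e)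
  have hSs : ∀ e : atlas E X, ContDiffOn ℝ ∞ (S e) (e : OpenPartialHomeomorph X E).target :=
    fun e => (SG_smooth J).comp_contDiffOn (hfs e)
  have hSd : ∀ e : atlas E X, ∀ y ∈ (e : OpenPartialHomeomorph X E).target,
      DifferentiableAt ℝ (S e) y := fun e y hy =>
    ((hSs e).contDiffAt ((e : OpenPartialHomeomorph X E).open_target.mem_nhds hy)
      ).differentiableAt (by simp)
  have hSalt : ∀ e : atlas E X, ∀ y ∈ (e : OpenPartialHomeomorph X E).target, ∀ u, S e y u u = 0 :=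
    fun e y hy u => (hpt e y hy).salt u
  have hSn : ∀ e : atlas E X, ∀ y ∈ (e : OpenPartialHomeomorph X E).target, ND (S e y) :=
    fun e y hy u hu => (hpt e y hy).snd (hNd e y hy) hu
  have hSc : ∀ (e e' : atlas E X), ∀ x ∈ (e : OpenPartialHomeomorph X E).source ∩
      (e' : OpenPartialHomeomorph X E).source, ∀ (u w : E) (a b : ℝ),
      S e ((e : OpenPartialHomeomorph X E) x) (u, a) (w, b) =
        S e' ((e' : OpenPartialHomeomorph X E) x)
        (fderiv ℝ ((e' : OpenPartialHomeomorph X E) ∘ (e : OpenPartialHomeomorph X E).symm)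
          ((e : OpenPartialHomeomorph X E) x) u, a)
        (fderiv ℝ ((e' : OpenPartialHomeomorph X E) ∘ (e : OpenPartialHomeomorph X E).symm)
          ((e : OpenPartialHomeomorph X E) x) w, b) := by
    intro e e' x hx u w a b
    set D := fderiv ℝ ((e' : OpenPartialHomeomorph X E) ∘ (e : OpenPartialHomeomorph X E).symm)
      ((e : OpenPartialHomeomorph X E) x) with hD
    have hcf : ∀ (u u' : E) (a a' : ℝ) (w w' : W),
        f e ((e : OpenPartialHomeomorph X E) x) ((u, a), w) ((u', a'), w') =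
        f e' ((e' : OpenPartialHomeomorph X E) x) ((D u, a), w) ((D u', a'), w') := by
      intro u u' a a' w w'
      rw [hf, hf, PP_apply, PP_apply, PP_apply, PP_apply, Om_compat h e e' hx.1 hx.2]
    have hA : AA J (f e ((e : OpenPartialHomeomorph X E) x)) (w, b) =
        AA J (f e' ((e' : OpenPartialHomeomorph X E) x)) (D w, b) := by
      rw [AA_apply, AA_apply]
      congr 2
      ext v
      rw [pr_apply, pr_apply]
      have h1 := hcf w 0 b 0 0 v
      rw [map_zero] at h1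
      exact h1
    show SG J (f e ((e : OpenPartialHomeomorph X E) x)) (u, a) (w, b) =
      SG J (f e' ((e' : OpenPartialHomeomorph X E) x)) (D u, a) (D w, b)
    rw [SG_apply, SG_apply, hcf, hA]
  have hScl : ∀ (e : atlas E X), ∀ y ∈ (e : OpenPartialHomeomorph X E).target,
      ∀ (u v w : E × ℝ), fderiv ℝ (S e) y u.1 v w + fderiv ℝ (S e) y v.1 w u +
        fderiv ℝ (S e) y w.1 u v = 0 := by
    intro e y hy
    -- the family over `E × ℝ`
    let g : E × ℝ → ((E × ℝ) × W) →L[ℝ] ((E × ℝ) × W) →L[ℝ] ℝ := fun p => f e p.1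
    have hfd : DifferentiableAt ℝ (f e) y :=
      ((hfs e).contDiffAt ((e : OpenPartialHomeomorph X E).open_target.mem_nhds hy)
        ).differentiableAt (by simp)
    have hg : HasFDerivAt g ((fderiv ℝ (f e) y).comp (ContinuousLinearMap.fst ℝ E ℝ)) (y, 0) :=
      fst_der (F := E) (G := ((E × ℝ) × W) →L[ℝ] ((E × ℝ) × W) →L[ℝ] ℝ) (H := ℝ)
        (p := (y, (0 : ℝ))) hfd.hasFDerivAt
    have hSg : HasFDerivAt (fun p : E × ℝ => SG J (g p))
        ((fderiv ℝ (S e) y).comp (ContinuousLinearMap.fst ℝ E ℝ)) (y, 0) :=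
      fst_der (F := E) (G := (E × ℝ) →L[ℝ] (E × ℝ) →L[ℝ] ℝ) (H := ℝ)
        (f := S e) (p := (y, (0 : ℝ))) (hSd e y hy).hasFDerivAt
    have hfo : ∀ (a : E) (b c : (E × ℝ) × W), fderiv ℝ (f e) y a b c =
        fderiv ℝ (Om om e) y a (PP E T b) (PP E T c) := by
      intro a b c
      have h1 : fderiv ℝ (f e) y a = TR E T (fderiv ℝ (Om om e) y a) :=
        clm_fderiv (F := E) (G := (E × V) →L[ℝ] (E × V) →L[ℝ] ℝ)
          (H := ((E × ℝ) × W) →L[ℝ] ((E × ℝ) × W) →L[ℝ] ℝ) (TR E T) (Om_diff h e hy) a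
      rw [h1]
      rfl
    have key : ∀ u v w : E × ℝ, fderiv ℝ (S e) y u.1 v w =
        fderiv ℝ (Om om e) y u.1 (PP E T (v, 0)) (PP E T (w, 0)) +
        fderiv ℝ (Om om e) y u.1 (PP E T (v, 0)) (PP E T (0, AA J (f e y) w)) -
        fderiv ℝ (Om om e) y u.1 (PP E T (w, 0)) (PP E T (0, AA J (f e y) v)) := by
      intro u v w
      have h1 := dSG (f := g) (y := (y, (0 : ℝ))) hg.differentiableAt (hpt e y hy) u v w
      rw [hSg.fderiv, hg.fderiv] at h1
      have h2 : fderiv ℝ (S e) y u.1 v w = fderiv ℝ (f e) y u.1 (v, 0) (w, 0) +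
          fderiv ℝ (f e) y u.1 (v, 0) (0, AA J (f e y) w) -
          fderiv ℝ (f e) y u.1 (w, 0) (0, AA J (f e y) v) := h1
      rw [h2, hfo, hfo, hfo]
    intro u v w
    rw [key, key, key]
    have h1 := Om_closed h hi e hy (PP E T (u, 0)) (PP E T (v, 0)) (PP E T (w, 0))
    have h2 : ∀ (a b : E × ℝ) (s : W),
        fderiv ℝ (Om om e) y a.1 (PP E T (b, 0)) (PP E T (0, s)) =
        fderiv ℝ (Om om e) y b.1 (PP E T (a, 0)) (PP E T (0, s)) := by
      intro a b s
      have h3 := Om_closed h hi e hy (PP E T (a, 0)) (PP E T (b, 0)) (PP E T (0, s))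
      have h4 := Om_dalt h e hy b.1 (PP E T (0, s)) (PP E T (a, 0))
      have h5 : fderiv ℝ (Om om e) y (0 : E) (PP E T (a, 0)) (PP E T (b, 0)) = 0 := by
        rw [map_zero]; rfl
      have h6 : fderiv ℝ (Om om e) y a.1 (PP E T (b, 0)) (PP E T (0, s)) +
          fderiv ℝ (Om om e) y b.1 (PP E T (0, s)) (PP E T (a, 0)) +
          fderiv ℝ (Om om e) y (0 : E) (PP E T (a, 0)) (PP E T (b, 0)) = 0 := h3
      rw [h5, h4] at h6
      linarith
    have e1 := h2 u v (AA J (f e y) w)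
    have e2 := h2 v w (AA J (f e y) u)
    have e3 := h2 w u (AA J (f e y) v)
    have h7 : fderiv ℝ (Om om e) y u.1 (PP E T (v, 0)) (PP E T (w, 0)) +
      fderiv ℝ (Om om e) y v.1 (PP E T (w, 0)) (PP E T (u, 0)) +
      fderiv ℝ (Om om e) y w.1 (PP E T (u, 0)) (PP E T (v, 0)) = 0 := h1
    linarith
  have hth : ∀ e : atlas E X, ∀ y ∈ (e : OpenPartialHomeomorph X E).target, ∀ u v : E,
      fderiv ℝ (fun z => thL E (S e z)) y u v = fderiv ℝ (S e) y u (v, 0) (0, 1) := by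
    intro e y hy u v
    have h1 : fderiv ℝ (fun z => thL E (S e z)) y u = thL E (fderiv ℝ (S e) y u) :=
      clm_fderiv (F := E) (G := (E × ℝ) →L[ℝ] (E × ℝ) →L[ℝ] ℝ) (H := E →L[ℝ] ℝ) (thL E)
        (hSd e y hy) u
    rw [h1]
    rfl
  have hsg : ∀ e : atlas E X, ∀ y ∈ (e : OpenPartialHomeomorph X E).target, ∀ u v w : E,
      fderiv ℝ (fun z => sgL E (S e z)) y u v w = fderiv ℝ (S e) y u (v, 0) (w, 0) := by
    intro e y hy u v w
    have h1 : fderiv ℝ (fun z => sgL E (S e z)) y u = sgL E (fderiv ℝ (S e) y u) :=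
      clm_fderiv (F := E) (G := (E × ℝ) →L[ℝ] (E × ℝ) →L[ℝ] ℝ) (H := E →L[ℝ] E →L[ℝ] ℝ) (sgL E)
        (hSd e y hy) u
    rw [h1]
    rfl
  -- the derivative of the form is alternating
  have hdalt : ∀ e : atlas E X, ∀ y ∈ (e : OpenPartialHomeomorph X E).target, ∀ (u : E)
      (a b : E × ℝ), fderiv ℝ (S e) y u a b = - fderiv ℝ (S e) y u b a := by
    intro e y hy u a b
    have h1 := fderiv_ev' (hSd e y hy) a b
    have h2 := (fderiv_ev' (hSd e y hy) b a).neg
    have h3 : (fun z => S e z a b) =ᶠ[𝓝 y] fun z => - S e z b a := by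
      filter_upwards [(e : OpenPartialHomeomorph X E).open_target.mem_nhds hy] with z hz
      exact alt_skew (hSalt e z hz) a b
    have h4 := (h1.congr_of_eventuallyEq h3.symm).unique h2
    exact congrArg (fun L : E →L[ℝ] ℝ => L u) h4
  refine ⟨fun e y => thL E (S e y), fun e y => sgL E (S e y), ?_, ?_, ?_, ?_, ?_, ?_, ?_, ?_, ?_⟩
  · exact fun e => smooth_clm (G := (E × ℝ) →L[ℝ] (E × ℝ) →L[ℝ] ℝ) (H := E →L[ℝ] ℝ) (thL E)
      (hSs e)
  · exact fun e => smooth_clm (G := (E × ℝ) →L[ℝ] (E × ℝ) →L[ℝ] ℝ) (H := E →L[ℝ] E →L[ℝ] ℝ)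
      (sgL E) (hSs e)
  · exact fun e y hy u => hSalt e y hy _
  · intro e e' x hx u
    have h1 := hSc e e' x hx u 0 0 1
    rw [map_zero] at h1
    exact h1
  · intro e e' x hx u w
    exact hSc e e' x hx u w 0 0
  · intro e y hy u v
    rw [hth e y hy, hth e y hy]
    have h1 := hScl e y hy (u, 0) (v, 0) (0, 1)
    have h2 := hdalt e y hy v (0, 1) (u, 0)
    have h3 : fderiv ℝ (S e) y (0 : E) (u, 0) (v, 0) = 0 := by
      rw [map_zero]; rfl
    have h4 : fderiv ℝ (S e) y u (v, 0) (0, 1) + fderiv ℝ (S e) y v (0, 1) (u, 0) +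
        fderiv ℝ (S e) y (0 : E) (u, 0) (v, 0) = 0 := h1
    rw [h3, h2] at h4
    linarith
  · intro e y hy u v w
    rw [hsg e y hy, hsg e y hy, hsg e y hy]
    exact hScl e y hy (u, 0) (v, 0) (w, 0)
  · exact fun e y hy => (nd_cos (hSalt e y hy) (hSn e y hy)).1
  · exact fun e y hy => (nd_cos (hSalt e y hy) (hSn e y hy)).2

end

end Pool.Agent.TH29.OT
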