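import Pool.Agent.TH242.TI.Main

/-!
Cosymplectic structures in charts, and the linear algebra of forms on `E × ℝ`.
-/

set_option autoImplicit false

open Set Filter Topology
open scoped ContDiff Manifold

namespace Pool.Agent.TH29.OT

open Pool.Agent.TH242.TI

/-- coordinate expressions of a closed `1`-form without zeros and of a closed `2`-form that is
nondegenerate on its kernel -/
structure Cos {ι M F : Type*} [TopologicalSpace M] [NormedAddCommGroup F] [NormedSpace ℝ F]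
    (c : ι → OpenPartialHomeomorph M F) (th : ι → F → F →L[ℝ] ℝ)
    (sg : ι → F → F →L[ℝ] F →L[ℝ] ℝ) : Prop where
  smooth1 : ∀ i, ContDiffOn ℝ ∞ (th i) (c i).target
  smooth2 : ∀ i, ContDiffOn ℝ ∞ (sg i) (c i).target
  alt : ∀ i, ∀ y ∈ (c i).target, ∀ u, sg i y u u = 0
  compat1 : ∀ i j, ∀ x ∈ (c i).source ∩ (c j).source, ∀ u,
    th i (c i x) u = th j (c j x) (fderiv ℝ (c j ∘ (c i).symm) (c i x) u)
  compat2 : ∀ i j, ∀ x ∈ (c i).source ∩ (c j).source, ∀ u v,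
    sg i (c i x) u v = sg j (c j x) (fderiv ℝ (c j ∘ (c i).symm) (c i x) u)
      (fderiv ℝ (c j ∘ (c i).symm) (c i x) v)
  closed1 : ∀ i, ∀ y ∈ (c i).target, ∀ u v, fderiv ℝ (th i) y u v = fderiv ℝ (th i) y v u
  closed2 : ∀ i, ∀ y ∈ (c i).target, ∀ u v w,
    fderiv ℝ (sg i) y u v w + fderiv ℝ (sg i) y v w u + fderiv ℝ (sg i) y w u v = 0
  ne : ∀ i, ∀ y ∈ (c i).target, ∃ v, th i y v ≠ 0
  nondeg : ∀ i, ∀ y ∈ (c i).target, ∀ u, u ≠ 0 → th i y u = 0 →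
    ∃ v, th i y v = 0 ∧ sg i y u v ≠ 0

section lin

variable {E V W : Type*} [NormedAddCommGroup E] [NormedSpace ℝ E]
  [NormedAddCommGroup V] [NormedSpace ℝ V] [NormedAddCommGroup W] [NormedSpace ℝ W]

/-- regrouping of the factors -/
noncomputable def PP (E : Type*) [NormedAddCommGroup E] [NormedSpace ℝ E]
    (T : (W × ℝ) ≃L[ℝ] V) : ((E × ℝ) × W) →L[ℝ] (E × V) :=
  ((ContinuousLinearMap.fst ℝ E ℝ).comp (ContinuousLinearMap.fst ℝ (E × ℝ) W)).prod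
    ((T : (W × ℝ) →L[ℝ] V).comp ((ContinuousLinearMap.snd ℝ (E × ℝ) W).prod
      ((ContinuousLinearMap.snd ℝ E ℝ).comp (ContinuousLinearMap.fst ℝ (E × ℝ) W))))

theorem PP_apply (T : (W × ℝ) ≃L[ℝ] V) (u : E) (a : ℝ) (w : W) :
    PP E T ((u, a), w) = (u, T (w, a)) := rfl

/-- transport of bilinear forms -/
noncomputable def TR (E : Type*) [NormedAddCommGroup E] [NormedSpace ℝ E]
    (T : (W × ℝ) ≃L[ℝ] V) : ((E × V) →L[ℝ] (E × V) →L[ℝ] ℝ) →L[ℝ]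
      (((E × ℝ) × W) →L[ℝ] ((E × ℝ) × W) →L[ℝ] ℝ) :=
  (ContinuousLinearMap.compL ℝ ((E × ℝ) × W) ((E × V) →L[ℝ] ℝ) (((E × ℝ) × W) →L[ℝ] ℝ)
    ((ContinuousLinearMap.compL ℝ ((E × ℝ) × W) (E × V) ℝ).flip (PP E T))).comp
    ((ContinuousLinearMap.compL ℝ ((E × ℝ) × W) (E × V) ((E × V) →L[ℝ] ℝ)).flip (PP E T))

theorem TR_apply (T : (W × ℝ) ≃L[ℝ] V) (Φ : (E × V) →L[ℝ] (E × V) →L[ℝ] ℝ)
    (a b : (E × ℝ) × W) : TR E T Φ a b = Φ (PP E T a) (PP E T b) := rfl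

/-- the `1`-form of a form on `E × ℝ` -/
noncomputable def thL (E : Type*) [NormedAddCommGroup E] [NormedSpace ℝ E] :
    ((E × ℝ) →L[ℝ] (E × ℝ) →L[ℝ] ℝ) →L[ℝ] (E →L[ℝ] ℝ) :=
  (ContinuousLinearMap.compL ℝ E ((E × ℝ) →L[ℝ] ℝ) ℝ
    (ContinuousLinearMap.apply ℝ ℝ ((0 : E), (1 : ℝ)))).comp
    ((ContinuousLinearMap.compL ℝ E (E × ℝ) ((E × ℝ) →L[ℝ] ℝ)).flip
      (ContinuousLinearMap.inl ℝ E ℝ))

theorem thL_apply (Φ : (E × ℝ) →L[ℝ] (E × ℝ) →L[ℝ] ℝ) (u : E) :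
    thL E Φ u = Φ (u, 0) (0, 1) := rfl

/-- the `2`-form of a form on `E × ℝ` -/
noncomputable def sgL (E : Type*) [NormedAddCommGroup E] [NormedSpace ℝ E] :
    ((E × ℝ) →L[ℝ] (E × ℝ) →L[ℝ] ℝ) →L[ℝ] (E →L[ℝ] E →L[ℝ] ℝ) :=
  (ContinuousLinearMap.compL ℝ E ((E × ℝ) →L[ℝ] ℝ) (E →L[ℝ] ℝ)
    ((ContinuousLinearMap.compL ℝ E (E × ℝ) ℝ).flip (ContinuousLinearMap.inl ℝ E ℝ))).comp
    ((ContinuousLinearMap.compL ℝ E (E × ℝ) ((E × ℝ) →L[ℝ] ℝ)).flip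
      (ContinuousLinearMap.inl ℝ E ℝ))

theorem sgL_apply (Φ : (E × ℝ) →L[ℝ] (E × ℝ) →L[ℝ] ℝ) (u v : E) :
    sgL E Φ u v = Φ (u, 0) (v, 0) := rfl

theorem alt_skew {F : Type*} [NormedAddCommGroup F] [NormedSpace ℝ F] {Φ : F →L[ℝ] F →L[ℝ] ℝ}
    (h : ∀ u, Φ u u = 0) (a b : F) : Φ a b = - Φ b a := by
  have h1 := h (a + b)
  have h5 : Φ (a + b) = Φ a + Φ b := map_add _ _ _
  have h6 : Φ (a + b) (a + b) = Φ a (a + b) + Φ b (a + b) := by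
    rw [h5]; rfl
  rw [h6, map_add, map_add, h, h] at h1
  linarith

/-- decomposition of an alternating form on `E × ℝ` -/
theorem dec {Φ : (E × ℝ) →L[ℝ] (E × ℝ) →L[ℝ] ℝ} (h : ∀ u, Φ u u = 0) (u v : E) (a b : ℝ) :
    Φ (u, a) (v, b) = sgL E Φ u v + b * thL E Φ u - a * thL E Φ v := by
  have e1 : ((u, a) : E × ℝ) = (u, 0) + a • ((0 : E), (1 : ℝ)) := by ext <;> simp
  have e2 : ((v, b) : E × ℝ) = (v, 0) + b • ((0 : E), (1 : ℝ)) := by ext <;> simp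
  have h1 : Φ (u, a) (v, b) = Φ (u, 0) (v, 0) + b * Φ (u, 0) (0, 1) + a * Φ (0, 1) (v, 0) +
      a * b * Φ (0, 1) (0, 1) := by
    rw [e1, e2]
    simp only [map_add, map_smul, add_apply, smul_apply, smul_eq_mul]
    ring
  rw [h1, h, alt_skew h (0, 1) (v, 0), sgL_apply, thL_apply, thL_apply]
  ring

theorem nd_cos {Φ : (E × ℝ) →L[ℝ] (E × ℝ) →L[ℝ] ℝ} (h : ∀ u, Φ u u = 0) (hn : ND Φ) :
    (∃ v, thL E Φ v ≠ 0) ∧
      ∀ u, u ≠ 0 → thL E Φ u = 0 → ∃ v, thL E Φ v = 0 ∧ sgL E Φ u v ≠ 0 := by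
  have h0 : ∃ v, thL E Φ v ≠ 0 := by
    obtain ⟨⟨v, b⟩, hv⟩ := hn (0, 1) (by simp)
    refine ⟨v, fun h1 => hv ?_⟩
    rw [dec h, h1, map_zero, map_zero]
    simp
  refine ⟨h0, fun u hu hut => ?_⟩
  obtain ⟨v0, hv0⟩ := h0
  by_contra hcon
  push Not at hcon
  obtain ⟨⟨v, b⟩, hv⟩ := hn (u, sgL E Φ u v0 / thL E Φ v0) (by
    intro h1
    exact hu (congrArg Prod.fst h1))
  apply hv
  have h2 := hcon (v - (thL E Φ v / thL E Φ v0) • v0) (by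
    rw [map_sub, map_smul, smul_eq_mul]
    field_simp
    ring)
  rw [map_sub, map_smul, smul_eq_mul] at h2
  rw [dec h, hut]
  have h3 : sgL E Φ u v = thL E Φ v / thL E Φ v0 * sgL E Φ u v0 := by linarith
  rw [h3]
  field_simp
  ring

/-- the derivative of an evaluation -/
theorem fderiv_ev' {F : Type*} [NormedAddCommGroup F] [NormedSpace ℝ F]
    {f : E → F →L[ℝ] F →L[ℝ] ℝ} {y : E} (hf : DifferentiableAt ℝ f y) (a b : F) :
    HasFDerivAt (fun y => f y a b) ((evL a b).comp (fderiv ℝ f y)) y := by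
  have h1 : HasFDerivAt (evL a b : (F →L[ℝ] F →L[ℝ] ℝ) → ℝ) (evL a b) (f y) :=
    ContinuousLinearMap.hasFDerivAt (𝕜 := ℝ) (E := F →L[ℝ] F →L[ℝ] ℝ) (F := ℝ) (evL a b)
  have h2 : HasFDerivAt f (fderiv ℝ f y) y := hf.hasFDerivAt
  exact HasFDerivAt.comp (𝕜 := ℝ) (E := E) (F := F →L[ℝ] F →L[ℝ] ℝ) (G := ℝ) y h1 h2

theorem fst_der {F G : Type*} [NormedAddCommGroup F] [NormedSpace ℝ F]
    [NormedAddCommGroup G] [NormedSpace ℝ G] {H : Type*} [NormedAddCommGroup H] [NormedSpace ℝ H]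
    {f : F → G} {f' : F →L[ℝ] G} {p : F × H} (hf : HasFDerivAt f f' p.1) :
    HasFDerivAt (fun p : F × H => f p.1) (f'.comp (ContinuousLinearMap.fst ℝ F H)) p :=
  HasFDerivAt.comp (g := f) p hf hasFDerivAt_fst

theorem clm_der {F G H : Type*} [NormedAddCommGroup F] [NormedSpace ℝ F]
    [NormedAddCommGroup G] [NormedSpace ℝ G] [NormedAddCommGroup H] [NormedSpace ℝ H]
    (L : G →L[ℝ] H) {f : F → G} {f' : F →L[ℝ] G} {x : F} (hf : HasFDerivAt f f' x) :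
    HasFDerivAt (fun x => L (f x)) (L.comp f') x :=
  L.hasFDerivAt.comp x hf

theorem clm_fderiv {F G H : Type*} [NormedAddCommGroup F] [NormedSpace ℝ F]
    [NormedAddCommGroup G] [NormedSpace ℝ G] [NormedAddCommGroup H] [NormedSpace ℝ H]
    (L : G →L[ℝ] H) {f : F → G} {x : F} (hf : DifferentiableAt ℝ f x) (a : F) :
    fderiv ℝ (fun x => L (f x)) x a = L (fderiv ℝ f x a) := by
  rw [(clm_der L hf.hasFDerivAt).fderiv]
  rfl

/-- splitting of a space of odd dimension -/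
theorem exists_split (V : Type*) [NormedAddCommGroup V] [NormedSpace ℝ V] [FiniteDimensional ℝ V]
    (hV : Odd (Module.finrank ℝ V)) : ∃ m : ℕ, Nonempty
      ((EuclideanSpace ℝ (Fin (2 * m)) × ℝ) ≃L[ℝ] V) := by
  obtain ⟨m, hm⟩ := hV
  refine ⟨m, ⟨(LinearEquiv.ofFinrankEq _ _ ?_).toContinuousLinearEquiv⟩⟩
  rw [hm]
  simp

end lin

end Pool.Agent.TH29.OT
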